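import Pool.Agent.H27.Pattern.Count

/-!
# A lower bound for the length of the shortest uniquely occurring pattern, for almost all blocks
-/

set_option autoImplicit false

namespace Pool.Agent.Results.MP_e36f12_nt.AlmostAllLower

open Pool.Agent.H27.Pattern Finset

open Classical in
/-- For every `δ > 0` there is `C` such that for all large `x` at most `δ x` of the integers
`1 ≤ k ≤ x` satisfy `L(k) < log x / (log log x + C)`. -/
theorem result : ∀ δ : ℝ, 0 < δ → ∃ C : ℝ, ∃ x₀ : ℕ, ∀ x : ℕ, x₀ ≤ x →
    (((Finset.Icc 1 x).filter fun k : ℕ => ∃ L : ℕ, IsLeast (UniqueLengths k) L ∧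
      (L : ℝ) < Real.log x / (Real.log (Real.log x) + C)).card : ℝ) ≤ δ * x := by
  intro δ hδ
  -- constants: the number of k with span > D is at most l p(x+l)/D
  set A : ℝ := 32 / δ with hA
  have hA0 : 0 < A := by positivity
  set C : ℝ := 3 + |Real.log (A + 2)| with hC
  have hCA : 2 + Real.log (A + 2) + 1 ≤ C := by
    have := le_abs_self (Real.log (A + 2))
    rw [hC]
    linarith
  have hC3 : 3 ≤ C := by
    have := abs_nonneg (Real.log (A + 2))
    linarith
  have hlog : Filter.Tendsto (fun n : ℕ => Real.log (n : ℝ)) Filter.atTop Filter.atTop :=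
    Real.tendsto_log_atTop.comp tendsto_natCast_atTop_atTop
  have hloglog : Filter.Tendsto (fun n : ℕ => Real.log (Real.log (n : ℝ)))
      Filter.atTop Filter.atTop := Real.tendsto_log_atTop.comp hlog
  have e1 : ∀ᶠ x : ℕ in Filter.atTop, (10 : ℝ) ≤ Real.log x := hlog.eventually_ge_atTop 10
  have e2 : ∀ᶠ x : ℕ in Filter.atTop, C ≤ Real.log (Real.log x) :=
    hloglog.eventually_ge_atTop C
  have e3 : ∀ᶠ x : ℕ in Filter.atTop, ∀ y : ℕ, x ≤ y → (p y : ℝ) ≤ 4 * y * Real.log y :=
    Filter.eventually_forall_ge_atTop.2 p_le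
  -- `exp (- log x / (2 log log x))` is small
  have e4 : ∀ᶠ x : ℕ in Filter.atTop,
      Real.exp (-(Real.log x / (2 * Real.log (Real.log x)))) ≤ δ / 2 := by
    have h1 : Filter.Tendsto (fun y : ℝ => y / (2 * Real.log y)) Filter.atTop Filter.atTop := by
      have h2 : Filter.Tendsto (fun y : ℝ => Real.exp y / y ^ 1) Filter.atTop Filter.atTop :=
        Real.tendsto_exp_div_pow_atTop 1
      have h3 := (h2.comp Real.tendsto_log_atTop).const_mul_atTop (show (0 : ℝ) < 1 / 2 by norm_num)
      refine h3.congr' ?_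
      filter_upwards [Filter.eventually_gt_atTop 1] with y hy
      simp only [Function.comp, pow_one]
      rw [Real.exp_log (by linarith)]
      have : Real.log y ≠ 0 := (Real.log_pos hy).ne'
      field_simp
    have h4 : Filter.Tendsto (fun x : ℕ => Real.exp (-(Real.log x / (2 * Real.log (Real.log x)))))
        Filter.atTop (nhds 0) :=
      (Real.tendsto_exp_neg_atTop_nhds_zero.comp h1).comp hlog
    exact (h4.eventually (gt_mem_nhds (show (0 : ℝ) < δ / 2 by positivity))).mono fun x hx => hx.le
  obtain ⟨x₀, hx₀⟩ := Filter.eventually_atTop.1 (e1.and (e2.and (e3.and (e4.and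
    (Filter.eventually_ge_atTop 1)))))
  refine ⟨C, x₀, fun x hx => ?_⟩
  obtain ⟨hl10, hll, hp, hsmall, hx1⟩ := hx₀ x hx
  have hxR : (1 : ℝ) ≤ x := by exact_mod_cast hx1
  have hx0 : (0 : ℝ) < x := by linarith
  set ell := Real.log x with hell
  set th := ell / (Real.log ell + C) with hth
  have hth0 : 0 < th := by
    rw [hth]
    apply div_pos (by linarith) (by linarith)
  set l := ⌈th⌉₊ - 1 with hl
  have hceil : th ≤ ⌈th⌉₊ := Nat.le_ceil th
  have hceil2 : (⌈th⌉₊ : ℝ) < th + 1 := Nat.ceil_lt_add_one hth0.le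
  have hceil1 : 1 ≤ ⌈th⌉₊ := Nat.one_le_ceil_iff.2 hth0
  have hlth : (l : ℝ) < th := by
    rw [hl, Nat.cast_sub hceil1]
    push_cast
    linarith
  have hthl : th ≤ l + 1 := by
    rw [hl, Nat.cast_sub hceil1]
    push_cast
    linarith
  have hsub : ((Finset.Icc 1 x).filter fun k : ℕ => ∃ L : ℕ, IsLeast (UniqueLengths k) L ∧
      (L : ℝ) < th) ⊆ (Icc 1 x).filter fun k => l ∈ UniqueLengths k := by
    intro k hk
    rw [mem_filter] at hk ⊢
    obtain ⟨hk1, L, hL, hLt⟩ := hk
    refine ⟨hk1, uniqueLengths_mono hL.1 ?_⟩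
    have h1 : (L : ℝ) < (l + 1 : ℕ) := by
      push_cast
      linarith
    have h2 : L < l + 1 := by exact_mod_cast h1
    omega
  by_cases hl0 : l = 0
  · have h1 : ((Icc 1 x).filter fun k => l ∈ UniqueLengths k) = ∅ := by
      rw [Finset.filter_eq_empty_iff]
      intro k _ hk
      have := hk.1
      omega
    rw [h1] at hsub
    rw [Finset.subset_empty.1 hsub, Finset.card_empty]
    push_cast
    positivity
  have hlpos : 0 < l := Nat.pos_of_ne_zero hl0
  have hlR : (0 : ℝ) < l := by exact_mod_cast hlpos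
  have hl1 : (1 : ℝ) ≤ l := by exact_mod_cast hlpos
  have hth2 : th ≤ ell := by
    rw [hth]
    apply div_le_self (by linarith) (by linarith)
  have hlogle : ell ≤ x := by
    have := Real.log_le_sub_one_of_pos hx0
    linarith
  have hlx : l ≤ x := by
    have : (l : ℝ) ≤ x := by linarith
    exact_mod_cast this
  -- the choice of D
  set D := ⌈A * (l * ell)⌉₊ with hD
  have hDge : A * (l * ell) ≤ D := Nat.le_ceil _
  have hell0 : 0 < ell := by linarith
  have hDpos : 0 < D := by
    rw [hD]
    exact Nat.ceil_pos.2 (by positivity)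
  have hDle : ((D + 1 : ℕ) : ℝ) ≤ (A + 2) * (l * ell) := by
    have h1 := (Nat.ceil_lt_add_one (a := A * (l * ell)) (by positivity)).le
    push_cast
    have h2 : 1 ≤ (l : ℝ) * ell := by nlinarith
    nlinarith
  have hcount := count_le x l D hDpos
  have hcard : (((Finset.Icc 1 x).filter fun k : ℕ => ∃ L : ℕ, IsLeast (UniqueLengths k) L ∧
      (L : ℝ) < th).card : ℝ) ≤ ((Icc 1 x).filter fun k => l ∈ UniqueLengths k).card := by
    exact_mod_cast Finset.card_le_card hsub
  refine hcard.trans (hcount.trans ?_)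
  have t1 : (l : ℝ) * p (x + l) / D ≤ δ / 2 * x := by
    have h1 := hp (x + l) (by omega)
    have h2 : ((x + l : ℕ) : ℝ) ≤ 2 * x := by
      have : (l : ℝ) ≤ x := by exact_mod_cast hlx
      push_cast
      linarith
    have h3 : Real.log ((x + l : ℕ) : ℝ) ≤ 2 * ell := by
      have h4 : Real.log ((x + l : ℕ) : ℝ) ≤ Real.log (2 * x) := by
        apply Real.log_le_log _ h2
        have : 0 < x + l := by omega
        exact_mod_cast this
      rw [Real.log_mul (by norm_num) hx0.ne'] at h4
      have hl3 : Real.log 2 < 0.6931471808 := Real.log_two_lt_d9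
      norm_num at hl3
      linarith
    have h5 : (p (x + l) : ℝ) ≤ 16 * (x * ell) := by
      refine h1.trans ?_
      calc 4 * ((x + l : ℕ) : ℝ) * Real.log ((x + l : ℕ) : ℝ) ≤ 4 * (2 * x) * (2 * ell) := by
            gcongr
        _ = _ := by ring
    have hDR : (0 : ℝ) < D := by exact_mod_cast hDpos
    rw [div_le_iff₀ hDR]
    calc (l : ℝ) * p (x + l) ≤ l * (16 * (x * ell)) := by gcongr
      _ = δ / 2 * x * (A * (l * ell)) := by
          rw [hA]
          field_simp
          ring
      _ ≤ δ / 2 * x * D := by gcongr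
  have t2 : (((D + 1).choose l : ℕ) : ℝ) ≤ δ / 2 * x := by
    refine (choose_le hlpos).trans ?_
    have h1 : Real.exp 1 * ((D + 1 : ℕ) : ℝ) / l ≤ Real.exp 1 * (A + 2) * ell := by
      rw [div_le_iff₀ hlR]
      calc Real.exp 1 * ((D + 1 : ℕ) : ℝ) ≤ Real.exp 1 * ((A + 2) * (l * ell)) := by gcongr
        _ = _ := by ring
    have h2 : Real.exp 1 * (A + 2) * ell = Real.exp (1 + Real.log (A + 2) + Real.log ell) := by
      rw [Real.exp_add, Real.exp_add, Real.exp_log (by positivity), Real.exp_log hell0]
    have h3 : (Real.exp 1 * ((D + 1 : ℕ) : ℝ) / l) ^ l ≤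
        Real.exp (l * (1 + Real.log (A + 2) + Real.log ell)) := by
      rw [Real.exp_nat_mul, ← h2]
      gcongr
    refine h3.trans ?_
    have hlogell : 3 ≤ Real.log ell := by linarith
    have hlA : 0 ≤ Real.log (A + 2) := Real.log_nonneg (by linarith)
    have h4 : (l : ℝ) * (1 + Real.log (A + 2) + Real.log ell) ≤
        ell - ell / (2 * Real.log ell) := by
      have h5 : (l : ℝ) * (1 + Real.log (A + 2) + Real.log ell) ≤
          th * (Real.log ell + C - 1) := by
        apply mul_le_mul hlth.le _ _ hth0.le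
        · linarith
        · positivity
      have h6 : th * (Real.log ell + C - 1) = ell - ell / (Real.log ell + C) := by
        rw [hth]
        have : Real.log ell + C ≠ 0 := by linarith
        field_simp
      rw [h6] at h5
      have h7 : ell / (2 * Real.log ell) ≤ ell / (Real.log ell + C) := by
        apply div_le_div_of_nonneg_left hell0.le (by linarith) (by linarith)
      linarith
    calc Real.exp (l * (1 + Real.log (A + 2) + Real.log ell)) ≤
          Real.exp (ell - ell / (2 * Real.log ell)) := Real.exp_le_exp.2 h4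
      _ = Real.exp (-(ell / (2 * Real.log ell))) * x := by
          rw [sub_eq_add_neg, Real.exp_add, hell, Real.exp_log hx0]
          ring
      _ ≤ δ / 2 * x := by gcongr
  linarith

end Pool.Agent.Results.MP_e36f12_nt.AlmostAllLower
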