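import Pool.Agent.H14.UL.CNT
import Pool.Agent.H14.UL.POW
import Pool.Agent.H19.UL.LEN
import Pool.Agent.H51.UL.SML
import Pool.Agent.H58.UL.RES
import Pool.Agent.H58.UL.SIV
import Pool.Agent.H65.UL.DIC
import Pool.Agent.H65.UL.NUM
import Pool.Agent.H74.UL.UNI
import Pool.Agent.H90.UL.COR
import Pool.Agent.H90.UL.CRT
import Pool.Agent.H90.UL.KEY
import Pool.Agent.H90.UL.TRE
import Pool.Agent.H94.UL.FOU
import Pool.Agent.H94.UL.PRE

/-!
# Blocks of consecutive primes which meet all residue classes modulo a prime occur only once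
-/

set_option autoImplicit false

namespace Pool.Agent.Results.MP_e36f12_nt.CoveringBlocks

open Pool.Agent.H27.Pattern Pool.Agent.H90.UL

/-- the main theorem on translated blocks -/
theorem pf_cor : T_COR := by
  have hR : T_RES := Pool.Agent.H90.UL.pf_res
  have hS : T_SIV := Pool.Agent.H90.UL.pf_siv Pool.Agent.H14.UL.pf_cnt hR
  have hK : T_KEY := Pool.Agent.H90.UL.pf_key hS
  exact Pool.Agent.H90.UL.pf_cor Pool.Agent.H94.UL.pf_pre Pool.Agent.H94.UL.pf_fou
    Pool.Agent.H14.UL.pf_pow (Pool.Agent.H51.UL.pf_sml hS) (Pool.Agent.H90.UL.pf_tre hS)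
    (Pool.Agent.H90.UL.pf_crt hK) hK Pool.Agent.H65.UL.pf_num

/-- For every `k ≥ 1` let `L` be the least length of a block of consecutive primes starting at `p k`
whose pattern occurs nowhere else, and let `L'` be the least length of a block starting at `p k`
which meets all residue classes modulo some prime. Then `L ≤ L'`, `p k ≤ L'`,
`L' ≤ C (p k) ^ 2 (log p k) ^ 5`, and Dickson's conjecture implies `L = L'`. -/
theorem result : ∃ C : ℝ, ∀ k : ℕ, 1 ≤ k → ∃ L L' : ℕ,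
    IsLeast (UniqueLengths k) L ∧ IsLeast (CoveringLengths k) L' ∧
    L ≤ L' ∧ p k ≤ L' ∧ (L' : ℝ) ≤ C * (p k : ℝ) ^ 2 * Real.log (p k : ℝ) ^ 5 ∧
    (Dickson → L = L') := by
  obtain ⟨hU, hW⟩ := Pool.Agent.H90.UL.pf_uni pf_cor
  obtain ⟨C, hC⟩ := Pool.Agent.H19.UL.pf_len
  refine ⟨C, fun k hk => ?_⟩
  obtain ⟨l, hl, hlC⟩ := hC k hk
  have hcov : IsLeast (CoveringLengths k) (sInf (CoveringLengths k)) :=
    ⟨Nat.sInf_mem ⟨l, hl⟩, fun m hm => Nat.sInf_le hm⟩
  have huni : IsLeast (UniqueLengths k) (sInf (UniqueLengths k)) :=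
    ⟨Nat.sInf_mem ⟨l, hU k l hk hl⟩, fun m hm => Nat.sInf_le hm⟩
  refine ⟨_, _, huni, hcov, huni.2 (hU k _ hk hcov.1), hW k _ hk hcov.1, ?_, fun hD => ?_⟩
  · refine le_trans ?_ hlC
    exact_mod_cast hcov.2 hl
  · exact le_antisymm (huni.2 (hU k _ hk hcov.1))
      (hcov.2 (Pool.Agent.H65.UL.pf_dic hD k _ hk huni.1))

end Pool.Agent.Results.MP_e36f12_nt.CoveringBlocks
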